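import Pool.Agent.H91.RD.Targets2
import Pool.Agent.H91.RD.Basic

/-!
# MP_609556_an, module LOW0
-/

set_option autoImplicit false

open MeasureTheory Set Filter Topology Metric
open Pool.Agent.H29.TF (hk P)

namespace Pool.Agent.H18.RD

open Pool.Agent.H91.RD

theorem low0 (hP : T_P1X) (hR : T_RSC) : T_LOW0 := by
  intro N f φ b c K k μ η0 θ lam hN hL δ hδ
  have hb : 0 < b := hL.ab
  obtain ⟨η, R0, K3, s0, h1, h2, h3, h4, h5, hmain⟩ :=
    hP N (rcut f 0 b) φ c lam K k μ η0 θ hN hL.hyp (δ / b) (by positivity)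
  refine ⟨b * η, R0, K3, s0, by positivity, ?_, h3, h4, h5, ?_⟩
  · have := (le_div_iff₀ hb).1 h2
    linarith
  intro u hu hu01 t0 ht0 x0 hx0 s hs y hy
  have hc := hR N f 0 b u hb hu
  have hsup : Super1 (rcut f 0 b) (fun t x => (u t x - 0) / (b - 0)) := by
    refine ⟨⟨1 / b, fun t ht x => ⟨?_, ?_⟩⟩, hc.c2, hc.dt, hc.cont, ?_⟩
    · rw [sub_zero, sub_zero]
      exact div_nonneg (hu01 t ht x).1 hb.le
    · rw [sub_zero, sub_zero]
      exact div_le_div_of_nonneg_right (hu01 t ht x).2 hb.le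
    · intro t ht x hlt
      have h6 : (u t x - 0) / (b - 0) ∈ Icc (0 : ℝ) 1 := by
        refine ⟨?_, hlt.le⟩
        rw [sub_zero, sub_zero]
        exact div_nonneg (hu01 t ht x).1 hb.le
      rw [hc.eqn t ht x]
      unfold rcut
      rw [if_pos h6]
  have h6 := hmain _ hsup t0 ht0 x0 (by
    intro z hz
    have h7 := hx0 z hz
    simp only [sub_zero]
    rw [le_div_iff₀ hb]
    linarith) s hs y hy
  simp only [sub_zero] at h6
  rw [le_div_iff₀ hb] at h6
  linarith

end Pool.Agent.H18.RD
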