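import Pool.Agent.H91.RD.Targets2
import Pool.Agent.H91.RD.Basic

/-!
# MP_609556_an: module RSE
-/

set_option autoImplicit false

open MeasureTheory Set Filter Topology Metric
open Pool.Agent.H29.TF (hk P)
open Pool.Agent.H91.RD

namespace Pool.Agent.H18.RD

theorem rse : T_RSE := by
  intro N f K a b w hf hfa hfb hab hw hwr
  have hba : 0 < b - a := by linarith
  have hV : ∀ t x, 0 ≤ (w t x - a) / (b - a) ∧ (w t x - a) / (b - a) ≤ 1 := by
    intro t x
    refine ⟨div_nonneg (by linarith [(hwr t x).1]) hba.le, ?_⟩
    rw [div_le_one hba]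
    linarith [(hwr t x).2]
  have hcut : ∀ t x, rcut f a b ((w t x - a) / (b - a)) = (b - a)⁻¹ * f (w t x) := by
    intro t x
    unfold rcut
    rw [if_pos (mem_Icc.2 (hV t x))]
    unfold resc
    rw [show a + (b - a) * ((w t x - a) / (b - a)) = w t x by field_simp; ring]
  refine ⟨fun a' => ?_, hV⟩
  have hm := hw.1 a'
  refine ⟨⟨1, fun t _ x => ?_⟩, ?_, ?_, ?_⟩
  · rw [abs_of_nonneg (hV t x).1]
    exact (hV t x).2
  · exact (hm.meas.sub_const a).div_const _
  · exact (hm.cont.sub continuousOn_const).div_const _
  · intro s t hs hst x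
    have hts : 0 < t - s := by linarith
    have h1 := hm.duh s t hs hst x
    have hmeas : AEStronglyMeasurable (w s) volume := (hw.continuous_space s).aestronglyMeasurable
    have i1 : Integrable (fun y => hk (t - s) (x - y) * w s y) := by
      apply Pool.Agent.H29.TF.integrable_hk_mul hts hmeas (C := 1)
      intro y
      rw [abs_of_nonneg (hw.2 s y).1]
      exact (hw.2 s y).2
    have i2 : Integrable (fun y => hk (t - s) (x - y) * a) := by
      apply Pool.Agent.H29.TF.integrable_hk_mul hts aestronglyMeasurable_const (C := |a|)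
      intro y
      exact le_rfl
    have e1 : P (t - s) (fun y => (w s y - a) / (b - a)) x =
        (b - a)⁻¹ * (P (t - s) (w s) x - a) := by
      have h2 : (fun y => (w s y - a) / (b - a)) = fun y => (b - a)⁻¹ * (w s y - a) := by
        funext y
        rw [div_eq_inv_mul]
      rw [h2, Pool.Agent.H29.TF.P_const_mul, Pool.Agent.H29.TF.P_sub x i1 i2,
        Pool.Agent.H29.TF.P_const hts]
    have e2 : ∀ r, P (t - r) (fun y => rcut f a b ((w r y - a) / (b - a))) x =
        (b - a)⁻¹ * P (t - r) (fun y => f (w r y)) x := by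
      intro r
      simp only [hcut]
      rw [Pool.Agent.H29.TF.P_const_mul]
    simp only [e2]
    rw [e1, intervalIntegral.integral_const_mul, h1]
    ring

end Pool.Agent.H18.RD
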